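import Mathlib
import Pool.Agent.Q131.NA.Defs

/-!
Job NA8: the iteration.
-/

set_option autoImplicit false

namespace Pool.Agent.Q211.NA

open Finset Pool.Agent.Q131.NA

/-- one more cell -/
theorem one_more (h1 : S_step1) (h2 : S_step2) {G : Type} [AddCommGroup G] [Fintype G]
    [DecidableEq G] {κ : G → Option (Fin 3)} {K : ℕ} (hκ : Rich κ K)
    (hodd : Odd (Fintype.card G)) {R C S : Finset G} {B T : Finset (G × G)} {D U : ℕ}
    (hB : Sparse B D) (hRC : R.card = C.card) (hRS : R.card = S.card)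
    (hsum : ∑ x ∈ R, x + ∑ y ∈ C, y = ∑ s ∈ S, s) (hT : State R C S B T)
    (hl : (lost κ T).card ≤ U) (hn : 4 * 3 ^ 12 * (12 * U + 16 + 13 * D) < Fintype.card G)
    (hlt : T.card < R.card) : ∃ T' : Finset (G × G), State R C S B T' ∧
      T'.card = T.card + 1 ∧ (lost κ T').card ≤ U + 12 := by
  -- the uncovered rows, columns and symbols
  have gen : ∀ (f : G × G → G) (A : Finset G), Set.InjOn f (T : Set (G × G)) →
      (∀ p ∈ T, f p ∈ A) → R.card = A.card →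
      (A \ T.image f).card = R.card - T.card ∧
        ∑ x ∈ A \ T.image f, x + ∑ p ∈ T, f p = ∑ x ∈ A, x ∧
        ∀ x ∈ A \ T.image f, x ∈ A ∧ ∀ p ∈ T, f p ≠ x := by
    intro f A hf hA hc
    have hsub : T.image f ⊆ A := by
      intro y hy
      obtain ⟨p, hp, rfl⟩ := mem_image.1 hy
      exact hA p hp
    refine ⟨?_, ?_, ?_⟩
    · rw [card_sdiff_of_subset hsub, card_image_of_injOn hf, hc]
    · rw [← sum_image (f := fun x => x) (g := f) fun p hp q hq h => hf hp hq h]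
      exact sum_sdiff hsub
    · intro x hx
      obtain ⟨hx1, hx2⟩ := mem_sdiff.1 hx
      exact ⟨hx1, fun p hp he => hx2 (mem_image.2 ⟨p, hp, he⟩)⟩
  obtain ⟨r1, r2, r3⟩ := gen (fun p => p.1) R hT.pt.row hT.row rfl
  obtain ⟨c1, c2, c3⟩ := gen (fun p => p.2) C hT.pt.col hT.col hRC
  obtain ⟨s1, s2, s3⟩ := gen (fun p => p.1 + p.2) S hT.pt.sym hT.sym hRS
  by_cases hone : R.card - T.card = 1
  · rw [hone] at r1 c1 s1
    obtain ⟨r, hr⟩ := card_eq_one.1 r1
    obtain ⟨c, hc⟩ := card_eq_one.1 c1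
    obtain ⟨s, hs⟩ := card_eq_one.1 s1
    rw [hr, sum_singleton] at r2
    rw [hc, sum_singleton] at c2
    rw [hs, sum_singleton, sum_add_distrib] at s2
    have hrc : r + c = s := by
      have e1 : r + ∑ p ∈ T, p.1 + (c + ∑ p ∈ T, p.2) = s + (∑ p ∈ T, p.1 + ∑ p ∈ T, p.2) := by
        rw [r2, c2, s2, hsum]
      have e2 : r + ∑ p ∈ T, p.1 + (c + ∑ p ∈ T, p.2) =
          r + c + (∑ p ∈ T, p.1 + ∑ p ∈ T, p.2) := by abel
      rw [e2] at e1
      exact add_right_cancel e1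
    obtain ⟨hr1, hr2⟩ := r3 r (hr ▸ mem_singleton_self r)
    obtain ⟨hc1, hc2⟩ := c3 c (hc ▸ mem_singleton_self c)
    obtain ⟨hs1, hs2⟩ := s3 s (hs ▸ mem_singleton_self s)
    exact h1 G κ K hκ hodd R C S B T D U hB hT hl hn r c s hr1 hc1 hs1 hr2 hc2 hs2 hrc
  · have htwo : 1 < R.card - T.card := by omega
    obtain ⟨r, hr, r', hr', hrr⟩ := one_lt_card.1 (r1 ▸ htwo)
    obtain ⟨c, hc, c', hc', hcc⟩ := one_lt_card.1 (c1 ▸ htwo)
    obtain ⟨s, hs⟩ : (S \ T.image fun p => p.1 + p.2).Nonempty := by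
      rw [← card_pos, s1]
      omega
    obtain ⟨hr1, hr2⟩ := r3 r hr
    obtain ⟨hr3, hr4⟩ := r3 r' hr'
    obtain ⟨hc1, hc2⟩ := c3 c hc
    obtain ⟨hc3, hc4⟩ := c3 c' hc'
    obtain ⟨hs1, hs2⟩ := s3 s hs
    by_cases e1 : r + c = s
    · exact h1 G κ K hκ hodd R C S B T D U hB hT hl hn r c s hr1 hc1 hs1 hr2 hc2 hs2 e1
    · by_cases e2 : r' + c' = s
      · exact h1 G κ K hκ hodd R C S B T D U hB hT hl hn r' c' s hr3 hc3 hs1 hr4 hc4 hs2 e2
      · exact h2 G κ K hκ hodd R C S B T D U hB hT hl hn r c r' c' s hr1 hc1 hr3 hc3 hs1 hrr hcc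
          hr2 hc2 hr4 hc4 hs2 e1 e2

/-- **Job NA8.** -/
theorem iter (h1 : S_step1) (h2 : S_step2) : S_iter := by
  intro G _ _ _ κ K hκ hodd R C S B T D U hB hRC hRS hsum hT hl hn
  obtain ⟨n, hn'⟩ : ∃ n, n = R.card - T.card := ⟨_, rfl⟩
  induction n generalizing T U with
  | zero =>
    have h3 : T.card ≤ R.card := by
      rw [← card_image_of_injOn hT.pt.row]
      refine card_le_card fun y hy => ?_
      obtain ⟨p, hp, rfl⟩ := mem_image.1 hy
      exact hT.row p hp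
    exact ⟨T, hT, by omega⟩
  | succ n ih =>
    have hn1 : 4 * 3 ^ 12 * (12 * U + 16 + 13 * D) < Fintype.card G := by
      refine lt_of_le_of_lt (Nat.mul_le_mul_left _ ?_) hn
      omega
    obtain ⟨T', hT', hc', hl'⟩ := one_more h1 h2 hκ hodd hB hRC hRS hsum hT hl hn1 (by omega)
    refine ih T' (U + 12) hT' hl' ?_ (by omega)
    have e1 : U + 12 + 12 * (R.card - T'.card) = U + 12 * (R.card - T.card) := by omega
    rw [e1]
    exact hn

end Pool.Agent.Q211.NA
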