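import Mathlib
import Pool.Agent.Q131.NA.Defs

/-!
Job NA1: the move.
-/

set_option autoImplicit false

namespace Pool.Agent.Q211.NA

open Finset Pool.Agent.Q131.NA

variable {G : Type} [AddCommGroup G]

theorem cell_inj {i j : Fin 3} {t t' : G} (h : cell i t = cell j t') : t = t' := by
  fin_cases i <;> fin_cases j <;> simp only [cell, Prod.mk.injEq] at h
  · exact h.1
  · exact h.2
  · exact h.1
  · exact h.2
  · exact h.2
  · have h1 : -(t + t) + t = t' + -(t' + t') := congrArg₂ (· + ·) h.1 h.2
    have h2 : -(t + t) + t = -t := by abel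
    have h3 : t' + -(t' + t') = -t' := by abel
    rw [h2, h3] at h1
    exact neg_injective h1
  · exact h.1
  · have h1 : t + -(t + t) = -(t' + t') + t' := congrArg₂ (· + ·) h.1 h.2
    have h2 : -(t' + t') + t' = -t' := by abel
    have h3 : t + -(t + t) = -t := by abel
    rw [h2, h3] at h1
    exact neg_injective h1
  · exact h.1

variable [DecidableEq G]

omit [AddCommGroup G] in
theorem swap_card (f : G × G → G) {T O N : Finset (G × G)} (hO : O ⊆ T) (hc : N.card ≤ O.card)
    (h : (((T \ O) ∪ N).image f).card = T.card) :
    Set.InjOn f ↑((T \ O) ∪ N) ∧ ((T \ O) ∪ N).card = T.card := by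
  have h1 : ((T \ O) ∪ N).card ≤ T.card := by
    refine (card_union_le _ _).trans ?_
    rw [card_sdiff_of_subset hO]
    have := card_le_card hO
    omega
  have h2 := card_image_le (s := (T \ O) ∪ N) (f := f)
  have h3 : ((T \ O) ∪ N).card = T.card := by omega
  exact ⟨card_image_iff.1 (h.trans h3.symm), h3⟩

omit [AddCommGroup G] in
theorem swap_ins (f : G × G → G) {T O N : Finset (G × G)} {X : Finset G} {a b : G}
    (hf : Set.InjOn f (T : Set (G × G))) (hO : O ⊆ T) (hc : N.card ≤ O.card)
    (hOX : O.image f = insert b X) (hX : X.card < O.card) (hNX : N.image f = insert a X)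
    (ha : a ∉ T.image f) : Set.InjOn f ↑((T \ O) ∪ N) ∧ ((T \ O) ∪ N).card = T.card ∧
      ((T \ O) ∪ N).image f = insert a ((T.image f).erase b) := by
  have hb : b ∉ X := by
    intro hb
    rw [insert_eq_of_mem hb] at hOX
    have h1 : (O.image f).card = O.card :=
      card_image_of_injOn fun p hp q hq h => hf (hO hp) (hO hq) h
    rw [hOX] at h1
    omega
  have hOT : O.image f ⊆ T.image f := image_subset_image hO
  have hbT : b ∈ T.image f := hOT (by rw [hOX]; exact mem_insert_self _ _)
  have hXT : X ⊆ T.image f := fun y hy => hOT (by rw [hOX]; exact mem_insert_of_mem hy)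
  have himg : ((T \ O) ∪ N).image f = insert a ((T.image f).erase b) := by
    rw [image_union, image_sdiff_of_injOn hf hO, hOX, hNX]
    ext y
    simp only [mem_union, mem_sdiff, mem_insert, mem_erase, not_or]
    constructor
    · rintro (⟨h1, h2, _⟩ | h1 | h1)
      · exact Or.inr ⟨h2, h1⟩
      · exact Or.inl h1
      · exact Or.inr ⟨fun e => hb (e ▸ h1), hXT h1⟩
    · rintro (h1 | ⟨h1, h2⟩)
      · exact Or.inr (Or.inl h1)
      · by_cases hy : y ∈ X
        · exact Or.inr (Or.inr hy)
        · exact Or.inl ⟨h2, h1, hy⟩
  have hcard : (((T \ O) ∪ N).image f).card = T.card := by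
    rw [himg, card_insert_of_notMem fun h => ha (mem_of_mem_erase h), card_erase_of_mem hbT,
      card_image_of_injOn hf]
    have h1 : 0 < T.card := by
      rw [← card_image_of_injOn hf]
      exact card_pos.2 ⟨b, hbT⟩
    omega
  obtain ⟨h1, h2⟩ := swap_card f hO hc hcard
  exact ⟨h1, h2, himg⟩

omit [AddCommGroup G] in
theorem swap_eq (f : G × G → G) {T O N : Finset (G × G)}
    (hf : Set.InjOn f (T : Set (G × G))) (hO : O ⊆ T) (hc : N.card ≤ O.card)
    (hNX : N.image f = O.image f) : Set.InjOn f ↑((T \ O) ∪ N) ∧
      ((T \ O) ∪ N).image f = T.image f := by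
  have himg : ((T \ O) ∪ N).image f = T.image f := by
    rw [image_union, image_sdiff_of_injOn hf hO, hNX]
    exact sdiff_union_of_subset (image_subset_image hO)
  have hcard : (((T \ O) ∪ N).image f).card = T.card := by
    rw [himg, card_image_of_injOn hf]
  exact ⟨(swap_card f hO hc hcard).1, himg⟩

/-- the list of the types and parameters -/
def par (r c x s : G) : List (Fin 3 × G) :=
  [(0, x), (0, r + c - x), (1, s), (1, -r - s), (2, -x - s), (2, x + s - c)]

theorem old_card {r c x s : G} (h : [x, r + c - x, s, -r - s, -x - s, x + s - c].Nodup) :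
    (oldc r c x s).card = 6 := by
  have h1 : (par r c x s).Pairwise fun a b => a.2 ≠ b.2 := List.pairwise_map.1 h
  have h2 : ((par r c x s).map fun p => cell p.1 p.2).Nodup :=
    List.pairwise_map.2 (h1.imp fun hab e => hab (cell_inj e))
  have h3 : oldc r c x s = ((par r c x s).map fun p => cell p.1 p.2).toFinset := by
    simp [oldc, par]
  rw [h3, List.toFinset_card_of_nodup h2]
  rfl

/-- **Job NA1.** -/
theorem move : S_move := by
  intro G _ _ T r c x s hT hr hc hO hnd
  have h6 := old_card hnd
  have hN : (newc r c x s).card ≤ (oldc r c x s).card := by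
    rw [h6]
    exact card_le_six
  have hrow := swap_ins (fun p : G × G => p.1) (T := T) (O := oldc r c x s) (N := newc r c x s)
    (X := {r + c - x, -(s + s), (r + s) + (r + s), -x - s, x + s - c}) (a := r) (b := x)
    hT.row hO hN (by
      ext y
      simp only [oldc, cell, image_insert, image_singleton, mem_insert, mem_singleton]
      have e1 : -(-r - s + (-r - s)) = (r + s) + (r + s) := by abel
      rw [e1]) (by
      rw [h6]
      exact Nat.lt_succ_of_le card_le_five) (by
      ext y
      simp only [newc, image_insert, image_singleton, mem_insert, mem_singleton]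
      simp only [or_assoc, or_comm, or_left_comm]) (fun h => by
      obtain ⟨p, hp, he⟩ := mem_image.1 h
      exact hr p hp he)
  have hcol := swap_ins (fun p : G × G => p.2) (T := T) (O := oldc r c x s) (N := newc r c x s)
    (X := {x, s, -r - s, (x + s) + (x + s), -((x + s - c) + (x + s - c))}) (a := c)
    (b := r + c - x)
    hT.col hO hN (by
      ext y
      simp only [oldc, cell, image_insert, image_singleton, mem_insert, mem_singleton]
      have e1 : -(-x - s + (-x - s)) = (x + s) + (x + s) := by abel
      rw [e1]
      simp only [or_assoc, or_comm, or_left_comm]) (by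
      rw [h6]
      exact Nat.lt_succ_of_le card_le_five) (by
      ext y
      simp only [newc, image_insert, image_singleton, mem_insert, mem_singleton]
      simp only [or_assoc, or_comm, or_left_comm]) (fun h => by
      obtain ⟨p, hp, he⟩ := mem_image.1 h
      exact hc p hp he)
  have hsym := swap_eq (fun p : G × G => p.1 + p.2) (T := T) (O := oldc r c x s)
    (N := newc r c x s) hT.sym hO hN (by
      ext y
      simp only [oldc, newc, cell, image_insert, image_singleton, mem_insert, mem_singleton]
      have e1 : -x - s + x = -(s + s) + s := by abel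
      have e2 : -(s + s) + (x + s + (x + s)) = x + x := by abel
      have e3 : r + c - x + (-r - s) = x + s - c + -(x + s - c + (x + s - c)) := by abel
      have e4 : r + s + (r + s) + -(x + s - c + (x + s - c)) = r + c - x + (r + c - x) := by abel
      have e5 : r + s = -(-r - s + (-r - s)) + (-r - s) := by abel
      have e6 : x + s - c + c = -x - s + -(-x - s + (-x - s)) := by abel
      rw [e1, e2, e3, e4, ← e5, e6]
      simp only [or_assoc, or_comm, or_left_comm])
  exact ⟨⟨hrow.1, hcol.1, hsym.1⟩, hrow.2.1, hrow.2.2, hcol.2.2, hsym.2⟩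

end Pool.Agent.Q211.NA
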