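import Mathlib
import Pool.Agent.Q131.NA.Defs

/-!
Job NA2: segments of the orbits of a permutation.
-/

set_option autoImplicit false

namespace Pool.Agent.Q211.NA

open Finset Pool.Agent.Q131.NA

variable {V : Type} [Fintype V] [DecidableEq V]

/-- the windows of the points of `C` have `K` elements and are disjoint -/
def Gd (g : Equiv.Perm V) (K : ℕ) (C : Finset V) : Prop :=
  (∀ c ∈ C, ∀ p : ℕ, 0 < p → p < K → (g ^ p) c ≠ c) ∧
  ∀ c ∈ C, ∀ c' ∈ C, c ≠ c' → ∀ i < K, ∀ d < K, (g ^ i) c ≠ (g ^ d) c'

omit [Fintype V] [DecidableEq V] in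
theorem pow_cancel {g : Equiv.Perm V} {i d : ℕ} {u c : V} (h : (g ^ i) u = (g ^ d) c)
    (hd : d ≤ i) : (g ^ (i - d)) u = c := by
  have h1 : g ^ i = g ^ d * g ^ (i - d) := by
    rw [← pow_add, Nat.add_sub_cancel' hd]
  rw [h1, Equiv.Perm.mul_apply] at h
  exact (g ^ d).injective h

theorem exists_max (g : Equiv.Perm V) {K : ℕ} (hK : 1 ≤ K) : ∃ C : Finset V, Gd g K C ∧
    ∀ u : V, (∃ p : ℕ, 0 < p ∧ p < K ∧ (g ^ p) u = u) ∨
      ∃ c ∈ C, ∃ i < K, ∃ d < K, (g ^ i) u = (g ^ d) c := by
  classical
  obtain ⟨C, hC, hmax⟩ := exists_max_image ((univ : Finset (Finset V)).filter (Gd g K)) card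
    ⟨∅, mem_filter.2 ⟨mem_univ _, by
      refine ⟨fun c hc => absurd hc (notMem_empty c), fun c hc => absurd hc (notMem_empty c)⟩⟩⟩
  have hG := (mem_filter.1 hC).2
  refine ⟨C, hG, fun u => ?_⟩
  by_contra hcon
  rw [not_or] at hcon
  obtain ⟨h1, h2⟩ := hcon
  push Not at h1 h2
  have hu : u ∉ C := fun hu => h2 u hu 0 hK 0 hK rfl
  have hG' : Gd g K (insert u C) := by
    refine ⟨fun c hc p hp hpK => ?_, fun c hc c' hc' hne i hi d hd => ?_⟩
    · rcases mem_insert.1 hc with rfl | hc
      · exact h1 p hp hpK
      · exact hG.1 c hc p hp hpK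
    · rcases mem_insert.1 hc with hcu | hc1
      · rcases mem_insert.1 hc' with hcu' | hc2
        · exact absurd (hcu.trans hcu'.symm) hne
        · rw [hcu]
          exact h2 c' hc2 i hi d hd
      · rcases mem_insert.1 hc' with hcu' | hc2
        · rw [hcu']
          exact fun e => h2 c hc1 d hd i hi e.symm
        · exact hG.2 c hc1 c' hc2 hne i hi d hd
  have h3 := hmax (insert u C) (mem_filter.2 ⟨mem_univ _, hG'⟩)
  rw [card_insert_of_notMem hu] at h3
  omega

theorem card_gd {g : Equiv.Perm V} {K : ℕ} {C : Finset V} (h : Gd g K C) :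
    K * C.card ≤ Fintype.card V := by
  have h1 : (C ×ˢ range K).card ≤ (univ : Finset V).card := by
    refine card_le_card_of_injOn (fun x => (g ^ x.2) x.1) (fun _ _ => mem_univ _) ?_
    rintro ⟨c, i⟩ hx ⟨c', d⟩ hy he
    have hx' := mem_product.1 (mem_coe.1 hx)
    have hy' := mem_product.1 (mem_coe.1 hy)
    simp only [mem_range] at hx' hy'
    change (g ^ i) c = (g ^ d) c' at he
    have hcc : c = c' := by
      by_contra hne
      exact h.2 c hx'.1 c' hy'.1 hne i hx'.2 d hy'.2 he
    subst hcc
    have hid : i = d := by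
      by_contra hne
      rcases lt_or_gt_of_ne hne with hlt | hlt
      · have h2 := pow_cancel he.symm hlt.le
        exact h.1 c hx'.1 (d - i) (by omega) (by omega) h2
      · have h2 := pow_cancel he hlt.le
        exact h.1 c hx'.1 (i - d) (by omega) (by omega) h2
    rw [hid]
  rw [card_product, card_range, card_univ] at h1
  rwa [mul_comm]

/-- **Job NA2.** -/
theorem seg : S_seg := by
  classical
  intro V _ _ g K hK
  obtain ⟨C, hG, hM⟩ := exists_max g hK
  -- the label
  obtain ⟨lab, hl1, hl2⟩ : ∃ lab : V → V,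
      (∀ t, ∀ h : ∃ j : ℕ, (g ^ j) t ∈ C, lab t = (g ^ Nat.find h) t) ∧
      (∀ t, (¬ ∃ j : ℕ, (g ^ j) t ∈ C) →
        lab t = Quotient.out (Quotient.mk (Equiv.Perm.SameCycle.setoid g) t)) := by
    refine ⟨fun t => if h : ∃ j : ℕ, (g ^ j) t ∈ C then (g ^ Nat.find h) t else
      Quotient.out (Quotient.mk (Equiv.Perm.SameCycle.setoid g) t), fun t h => ?_, fun t h => ?_⟩
    · beta_reduce
      rw [dif_pos h]
    · beta_reduce
      rw [dif_neg h]
  -- points in the same cycle
  have hsc : ∀ {t u : V}, g.SameCycle t u → ∃ i : ℕ, (g ^ i) t = u := by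
    intro t u h
    obtain ⟨i, _, h2⟩ := h.exists_pow_eq'
    exact ⟨i, h2⟩
  have hhit : ∀ {t u : V}, g.SameCycle t u → u ∈ C → ∃ j : ℕ, (g ^ j) t ∈ C := by
    intro t u h hu
    obtain ⟨i, hi⟩ := hsc h
    exact ⟨i, hi ▸ hu⟩
  have hpow : ∀ (t : V) (i : ℕ), g.SameCycle t ((g ^ i) t) := fun t i => ⟨i, by simp⟩
  refine ⟨C, lab, card_gd hG, fun t ht hgt => ?_, fun v => ?_⟩
  · by_cases h : ∃ j : ℕ, (g ^ j) t ∈ C
    · obtain ⟨j0, hj0⟩ : ∃ j0 : ℕ, Nat.find h = j0 + 1 := by
        refine ⟨Nat.find h - 1, ?_⟩
        have h1 : Nat.find h ≠ 0 := by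
          intro h0
          have h2 := Nat.find_spec h
          rw [h0] at h2
          exact ht h2
        omega
      have hs : ∀ j : ℕ, (g ^ j) (g t) = (g ^ (j + 1)) t := fun j => by
        rw [pow_succ, Equiv.Perm.mul_apply]
      have h' : ∃ j : ℕ, (g ^ j) (g t) ∈ C := ⟨j0, by
        rw [hs, ← hj0]
        exact Nat.find_spec h⟩
      rw [hl1 t h, hl1 (g t) h', hs]
      congr 2
      have h2 : Nat.find h' = j0 := by
        rw [Nat.find_eq_iff]
        refine ⟨?_, fun m hm hm' => ?_⟩
        · rw [hs, ← hj0]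
          exact Nat.find_spec h
        · rw [hs] at hm'
          exact Nat.find_min h (m := m + 1) (by omega) hm'
      rw [h2, hj0]
    · have h' : ¬ ∃ j : ℕ, (g ^ j) (g t) ∈ C := by
        rintro ⟨j, hj⟩
        exact h ⟨j + 1, by rwa [pow_succ, Equiv.Perm.mul_apply]⟩
      rw [hl2 t h, hl2 (g t) h']
      congr 1
      exact Quotient.sound (show g.SameCycle (g t) t from ⟨-1, by simp⟩)
  · by_cases hv : v ∈ C
    · -- all points are near `v`
      have hsub : (univ.filter fun t => t ∉ C ∧ lab t = v) ⊆
          (range (2 * K)).image fun j => (g ^ j)⁻¹ v := by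
        intro t ht
        obtain ⟨ht1, ht2⟩ := (mem_filter.1 ht).2
        have h : ∃ j : ℕ, (g ^ j) t ∈ C := by
          by_contra hn
          have h1 := hl2 t hn
          rw [ht2] at h1
          have h2 : g.SameCycle t v := by
            have h3 := Quotient.mk_out (s := Equiv.Perm.SameCycle.setoid g) t
            rw [← h1] at h3
            exact Equiv.Perm.SameCycle.symm h3
          exact hn (hhit h2 hv)
        have h1 := hl1 t h
        rw [ht2] at h1
        have hlt : Nat.find h < 2 * K := by
          by_contra hge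
          push Not at hge
          rcases hM ((g ^ K) t) with ⟨p, hp1, hp2, hp3⟩ | ⟨c, hc, i, hi, d, hd, he⟩
          · -- a short cycle
            have h3 : (g ^ p) v = v := by
              have h4 : (g ^ p) t = t := by
                have h5 : (g ^ p) ((g ^ K) t) = (g ^ K) ((g ^ p) t) := by
                  rw [← Equiv.Perm.mul_apply, ← Equiv.Perm.mul_apply, ← pow_add, ← pow_add,
                    add_comm]
                rw [h5] at hp3
                exact (g ^ K).injective hp3
              rw [h1, ← Equiv.Perm.mul_apply, ← pow_add, add_comm, pow_add,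
                Equiv.Perm.mul_apply, h4]
            exact hG.1 v hv p hp1 hp2 h3
          · rw [← Equiv.Perm.mul_apply, ← pow_add] at he
            have h3 := pow_cancel he (by omega)
            refine Nat.find_min h (m := i + K - d) (by omega) ?_
            rw [h3]
            exact hc
        refine mem_image.2 ⟨Nat.find h, mem_range.2 hlt, ?_⟩
        rw [h1]
        simp
      exact (card_le_card hsub).trans (card_image_le.trans (by rw [card_range]))
    · by_cases hne : (univ.filter fun t => t ∉ C ∧ lab t = v).Nonempty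
      · obtain ⟨t0, ht0⟩ := hne
        have key : ∀ t, t ∈ (univ.filter fun t => t ∉ C ∧ lab t = v) →
            (¬ ∃ j : ℕ, (g ^ j) t ∈ C) ∧ g.SameCycle t v := by
          intro t ht
          obtain ⟨ht1, ht2⟩ := (mem_filter.1 ht).2
          have h : ¬ ∃ j : ℕ, (g ^ j) t ∈ C := by
            intro h
            have h1 := hl1 t h
            rw [ht2] at h1
            apply hv
            rw [h1]
            exact Nat.find_spec h
          refine ⟨h, ?_⟩
          have h1 := hl2 t h
          rw [ht2] at h1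
          have h3 := Quotient.mk_out (s := Equiv.Perm.SameCycle.setoid g) t
          rw [← h1] at h3
          exact Equiv.Perm.SameCycle.symm h3
        obtain ⟨h1, h2⟩ := key t0 ht0
        have hp : ∃ p : ℕ, 0 < p ∧ p < K ∧ (g ^ p) t0 = t0 := by
          rcases hM t0 with h3 | ⟨c, hc, i, _, d, _, he⟩
          · exact h3
          · exfalso
            apply h1
            refine hhit (t := t0) (u := c) ?_ hc
            have h4 : g.SameCycle t0 ((g ^ d) c) := he ▸ hpow t0 i
            exact h4.trans (hpow c d).symm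
        obtain ⟨p, hp1, hp2, hp3⟩ := hp
        have hper : ∀ m : ℕ, (g ^ m) t0 = (g ^ (m % p)) t0 := by
          intro m
          have h5 : ∀ q : ℕ, (g ^ (p * q)) t0 = t0 := by
            intro q
            induction q with
            | zero => simp
            | succ q ih =>
              rw [Nat.mul_succ, pow_add, Equiv.Perm.mul_apply, hp3, ih]
          conv_lhs => rw [← Nat.mod_add_div m p, pow_add, Equiv.Perm.mul_apply, h5]
        have hsub : (univ.filter fun t => t ∉ C ∧ lab t = v) ⊆
            (range (2 * K)).image fun j => (g ^ j) t0 := by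
          intro t ht
          obtain ⟨_, h4⟩ := key t ht
          obtain ⟨i, hi⟩ := hsc (h2.trans h4.symm)
          refine mem_image.2 ⟨i % p, mem_range.2 ?_, ?_⟩
          · have := Nat.mod_lt i hp1
            omega
          · rw [← hper, hi]
        exact (card_le_card hsub).trans (card_image_le.trans (by rw [card_range]))
      · rw [not_nonempty_iff_eq_empty] at hne
        rw [hne, card_empty]
        exact Nat.zero_le _

end Pool.Agent.Q211.NA
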