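import Mathlib
import Pool.Agent.Q131.NA.Defs
import Pool.Agent.Q230.NA7

/-!
Job NA6: step I.
-/

set_option autoImplicit false

namespace Pool.Agent.Q211.NA

open Finset Pool.Agent.Q131.NA Pool.Agent.Q230.NA7

theorem six_pair : ∀ i ∈ ([0, 1, 4, 5, 8, 9] : List (Fin 12)),
    ∀ j ∈ ([0, 1, 4, 5, 8, 9] : List (Fin 12)), ty i = ty j → i ≠ j →
      (i, j) ∈ PP ∨ (j, i) ∈ PP := by decide

/-- **Job NA6.** -/
theorem step1 (hm : S_move) : S_step1 := by
  intro G _ _ _ κ K hκ hodd R C S B T D U hB hT hlost hn r₁ c₁ s₀ hr₁ hc₁ hs₀ ur₁ uc₁ us₀ hrc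
  obtain ⟨v, hk, hL, hP, hN⟩ := exists_good κ K hκ hodd B D U hB (lost κ T) hlost hn
    r₁ c₁ 0 0 (-s₀)
  obtain ⟨x, s, s'⟩ := v
  have e3' : - -s₀ - x = s₀ - x := by rw [neg_neg]
  have e4 : r₁ + c₁ - x = s₀ - x := by rw [hrc]
  have hin : ∀ i, cell (ty i) (el r₁ c₁ 0 0 (-s₀) (x, s, s') i) ∈ T := by
    intro i
    by_contra hcon
    apply hL i
    simp only [lost, Finset.mem_filter, Finset.mem_univ, true_and]
    exact ⟨ty i, hk i, hcon⟩
  have i0 : cell 0 x ∈ T := hin 0
  have i1 : cell 0 (r₁ + c₁ - x) ∈ T := hin 1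
  have i4 : cell 1 s ∈ T := hin 4
  have i5 : cell 1 (-r₁ - s) ∈ T := hin 5
  have i8 : cell 2 (-x - s) ∈ T := hin 8
  have i9 : cell 2 (x + s - c₁) ∈ T := hin 9
  have N1 : [x, r₁ + c₁ - x, s, -r₁ - s, -x - s, x + s - c₁].Nodup := by
    have h := List.Nodup.map_on (f := el r₁ c₁ 0 0 (-s₀) (x, s, s'))
      (l := ([0, 1, 4, 5, 8, 9] : List (Fin 12))) (fun i hi j hj he => by
        by_contra hne
        have ht : ty i = ty j := by
          have h1 := hk i
          rw [he, hk j] at h1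
          exact (Option.some.inj h1).symm
        rcases six_pair i hi j hj ht hne with h1 | h1
        · exact hP (i, j) h1 he
        · exact hP (j, i) h1 he.symm) (by decide)
    exact h
  have R1 : r₁ ∉ T.image fun p => p.1 := by
    intro h
    obtain ⟨p, hp, hp2⟩ := Finset.mem_image.mp h
    exact ur₁ p hp hp2
  have C1 : c₁ ∉ T.image fun p => p.2 := by
    intro h
    obtain ⟨p, hp, hp2⟩ := Finset.mem_image.mp h
    exact uc₁ p hp hp2
  have S0 : s₀ ∉ T.image fun p => p.1 + p.2 := by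
    intro h
    obtain ⟨p, hp, hp2⟩ := Finset.mem_image.mp h
    exact us₀ p hp hp2
  have O1 : oldc r₁ c₁ x s ⊆ T := by
    intro p hp
    simp only [oldc, Finset.mem_insert, Finset.mem_singleton] at hp
    rcases hp with rfl | rfl | rfl | rfl | rfl | rfl <;> assumption
  obtain ⟨P1, K1, A1, B1, Y1⟩ := oneMove hm T r₁ c₁ x s hT.pt R1 C1 O1 N1
  set T1 := (T \ oldc r₁ c₁ x s) ∪ newc r₁ c₁ x s with hT1
  have xT : x ∈ T.image fun p => p.1 := Finset.mem_image.mpr ⟨cell 0 x, i0, rfl⟩
  have yT : s₀ - x ∈ T.image fun p => p.2 :=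
    Finset.mem_image.mpr ⟨cell 0 (r₁ + c₁ - x), i1, e4⟩
  have xT2 : x ∉ T1.image fun p => p.1 := by
    rw [A1, Finset.mem_insert, Finset.mem_erase]
    rintro (h | h)
    · exact R1 (h ▸ xT)
    · exact h.1 rfl
  have yT2 : s₀ - x ∉ T1.image fun p => p.2 := by
    rw [B1, Finset.mem_insert, Finset.mem_erase, e4]
    rintro (h | h)
    · exact C1 (h ▸ yT)
    · exact h.1 rfl
  have sT2 : x + (s₀ - x) ∉ T1.image fun p => p.1 + p.2 := by
    rw [Y1]
    have : x + (s₀ - x) = s₀ := by abel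
    rw [this]; exact S0
  have hnew : (x, s₀ - x) ∉ T1 := fun h => xT2 (Finset.mem_image.mpr ⟨_, h, rfl⟩)
  have rowsR : T.image (fun p => p.1) ⊆ R := by
    intro a ha
    obtain ⟨p, hp, rfl⟩ := Finset.mem_image.mp ha
    exact hT.row p hp
  have colsC : T.image (fun p => p.2) ⊆ C := by
    intro a ha
    obtain ⟨p, hp, rfl⟩ := Finset.mem_image.mp ha
    exact hT.col p hp
  have symsS : T.image (fun p => p.1 + p.2) ⊆ S := by
    intro a ha
    obtain ⟨p, hp, rfl⟩ := Finset.mem_image.mp ha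
    exact hT.sym p hp
  refine ⟨insert (x, s₀ - x) T1, ⟨PT_insert T1 _ P1 xT2 yT2 sT2, ?_, ?_, ?_, ?_⟩, ?_, ?_⟩
  · intro p hp
    rcases Finset.mem_insert.mp hp with rfl | hp
    · exact rowsR xT
    · have h : p.1 ∈ T1.image fun p => p.1 := Finset.mem_image.mpr ⟨p, hp, rfl⟩
      rw [A1, Finset.mem_insert, Finset.mem_erase] at h
      rcases h with h | h
      · rw [h]; exact hr₁
      · exact rowsR h.2
  · intro p hp
    rcases Finset.mem_insert.mp hp with rfl | hp
    · exact colsC yT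
    · have h : p.2 ∈ T1.image fun p => p.2 := Finset.mem_image.mpr ⟨p, hp, rfl⟩
      rw [B1, Finset.mem_insert, Finset.mem_erase] at h
      rcases h with h | h
      · rw [h]; exact hc₁
      · exact colsC h.2
  · intro p hp
    rcases Finset.mem_insert.mp hp with rfl | hp
    · have : x + (s₀ - x) = s₀ := by abel
      show x + (s₀ - x) ∈ S
      rw [this]; exact hs₀
    · have h : p.1 + p.2 ∈ T1.image fun p => p.1 + p.2 := Finset.mem_image.mpr ⟨p, hp, rfl⟩
      rw [Y1] at h
      exact symsS h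
  · intro p hp
    have n0 : (-x - s, x) ∉ B := hN 0
    have n1 : (-(s + s), (x + s) + (x + s)) ∉ B := hN 1
    have n2 : (r₁ + c₁ - x, -r₁ - s) ∉ B := hN 2
    have n3 : ((r₁ + s) + (r₁ + s), -((x + s - c₁) + (x + s - c₁))) ∉ B := hN 3
    have n4 : (r₁, s) ∉ B := hN 4
    have n5 : (x + s - c₁, c₁) ∉ B := hN 5
    have n12 : (x, s₀ - x) ∉ B := by
      have := hN 12
      rw [← e3']; exact this
    rcases Finset.mem_insert.mp hp with rfl | hp
    · exact n12
    · rw [hT1] at hp
      rcases Finset.mem_union.mp hp with hp1 | hp1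
      · exact hT.out p (Finset.mem_sdiff.mp hp1).1
      · simp only [newc, Finset.mem_insert, Finset.mem_singleton] at hp1
        rcases hp1 with rfl | rfl | rfl | rfl | rfl | rfl <;> assumption
  · rw [Finset.card_insert_of_notMem hnew, K1]
  · have hsub : lost κ (insert (x, s₀ - x) T1) ⊆
        lost κ T ∪ (univ : Finset (Fin 12)).image (el r₁ c₁ 0 0 (-s₀) (x, s, s')) := by
      intro t ht
      simp only [lost, Finset.mem_filter, Finset.mem_univ, true_and] at ht
      obtain ⟨i, hi, hit⟩ := ht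
      by_cases h : cell i t ∈ T
      · refine Finset.mem_union_right _ ?_
        have hn2 : cell i t ∉ T1 := fun h => hit (Finset.mem_insert_of_mem h)
        have hex : ∃ j k, cell i t = cell k (el r₁ c₁ 0 0 (-s₀) (x, s, s') j) := by
          have h1 : cell i t ∈ oldc r₁ c₁ x s := by
            by_contra h2
            exact hn2 (Finset.mem_union_left _ (Finset.mem_sdiff.mpr ⟨h, h2⟩))
          simp only [oldc, Finset.mem_insert, Finset.mem_singleton] at h1
          rcases h1 with h | h | h | h | h | h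
          · exact ⟨0, 0, h⟩
          · exact ⟨1, 0, h⟩
          · exact ⟨4, 1, h⟩
          · exact ⟨5, 1, h⟩
          · exact ⟨8, 2, h⟩
          · exact ⟨9, 2, h⟩
        obtain ⟨j, k, hjk⟩ := hex
        exact Finset.mem_image.mpr ⟨j, Finset.mem_univ _,
          (Pool.Agent.Q230.NA7.cell_inj _ _ _ _ hjk).symm⟩
      · refine Finset.mem_union_left _ ?_
        simp only [lost, Finset.mem_filter, Finset.mem_univ, true_and]
        exact ⟨i, hi, h⟩
    refine (Finset.card_le_card hsub).trans ((Finset.card_union_le _ _).trans ?_)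
    refine Nat.add_le_add hlost ?_
    refine Finset.card_image_le.trans ?_
    simp

end Pool.Agent.Q211.NA
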